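import Mathlib

/-!
# Coprime action and Tate cohomology: the core lemmas

`K` is a profinite group whose finite quotients have order prime to `p`, with an automorphism `σ`,
`σ ^ p = 1`, acting on a `k`-vector space with `τ` over `σ`.
-/

set_option autoImplicit false

namespace Pool.Agent.J4H10.TV

open Finset

/-- a sum over a finite set on which `s`, `s ^ p = 1`, has no fixed point -/
theorem sum_mem_of_free {X V k : Type*} [Ring k] [AddCommGroup V] [Module k V] (p : ℕ)
    [hp : Fact p.Prime] (s : X → X) (hs : ∀ x, s^[p] x = x) (R : Submodule k V) (f : X → V)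
    (hf : ∀ x, s x ≠ x → ∑ i ∈ range p, f (s^[i] x) ∈ R) :
    ∀ (n : ℕ) (Y : Finset X), Y.card = n → (∀ x ∈ Y, s x ∈ Y ∧ s x ≠ x) → ∑ x ∈ Y, f x ∈ R := by
  classical
  intro n
  induction n using Nat.strong_induction_on with
  | _ n ih =>
    intro Y hn hY
    rcases Y.eq_empty_or_nonempty with rfl | ⟨x, hx⟩
    · simp
    · have hmem : ∀ i, s^[i] x ∈ Y := by
        intro i
        induction i with
        | zero => exact hx
        | succ i ihi =>
          rw [Function.iterate_succ_apply']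
          exact (hY _ ihi).1
      have hper : Function.IsPeriodicPt s p x := hs x
      have hmin : Function.minimalPeriod s x = p := by
        rcases (Nat.dvd_prime hp.out).mp hper.minimalPeriod_dvd with h | h
        · exact absurd (Function.minimalPeriod_eq_one_iff_isFixedPt.mp h) (hY x hx).2
        · exact h
      have hinj : Set.InjOn (fun i => s^[i] x) (range p : Finset ℕ) := by
        have := Function.iterate_injOn_Iio_minimalPeriod (f := s) (x := x)
        rw [hmin] at this
        intro a ha b hb hab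
        exact this (by simpa using ha) (by simpa using hb) hab
      set O : Finset X := (range p).image (fun i => s^[i] x) with hO
      have hOY : O ⊆ Y := by
        intro y hy
        rw [hO, mem_image] at hy
        obtain ⟨i, -, rfl⟩ := hy
        exact hmem i
      have hsum : ∑ y ∈ O, f y = ∑ i ∈ range p, f (s^[i] x) := by
        rw [hO, sum_image]
        exact fun a ha b hb h => hinj ha hb h
      have hcard : O.card = p := by
        rw [hO, card_image_of_injOn hinj, card_range]
      have hlt : (Y \ O).card < n := by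
        rw [card_sdiff_of_subset hOY, hcard, hn]
        have : 0 < n := by rw [← hn]; exact card_pos.mpr ⟨x, hx⟩
        have := hp.out.pos
        omega
      have hrest : ∀ y ∈ Y \ O, s y ∈ Y \ O ∧ s y ≠ y := by
        intro y hy
        rw [mem_sdiff] at hy
        refine ⟨mem_sdiff.mpr ⟨(hY y hy.1).1, fun h => hy.2 ?_⟩, (hY y hy.1).2⟩
        rw [hO, mem_image] at h
        obtain ⟨i, -, hi⟩ := h
        have h1 : y = s^[p - 1 + i] x := by
          rw [Function.iterate_add_apply, hi, ← Function.iterate_succ_apply]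
          rw [show (p - 1).succ = p from Nat.succ_pred_eq_of_pos hp.out.pos, hs]
        have h2 : ∀ j, s^[j] x = s^[j % p] x := by
          intro j
          exact (hper.iterate_mod_apply j).symm
        rw [h1, h2, hO, mem_image]
        exact ⟨_, mem_range.mpr (Nat.mod_lt _ hp.out.pos), rfl⟩
      rw [← sum_sdiff hOY]
      refine R.add_mem (ih _ hlt _ rfl hrest) ?_
      rw [hsum]
      exact hf x (hY x hx).2

section

variable {K : Type*} [Group K] [TopologicalSpace K] [IsTopologicalGroup K] [CompactSpace K]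
  [T2Space K] [TotallyDisconnectedSpace K]

/-- the open normal `σ`-stable subgroups of `K` and the set of the elements fixed modulo them -/
theorem exists_stable (p : ℕ) (hp0 : 0 < p) (σ : MulAut K) (hσ : Continuous σ)
    (hσp : σ ^ p = 1) (S : Set K) (hS : IsOpen S) (hfix : ∀ x, σ x = x → x ∈ S) :
    ∃ N : Subgroup K, N.Normal ∧ IsOpen (N : Set K) ∧ (∀ x ∈ N, σ x ∈ N) ∧
      ∀ x, x⁻¹ * σ x ∈ N → x ∈ S := by
  have hg : Continuous (fun x : K => x⁻¹ * σ x) := by fun_prop
  have hcomp : IsCompact ((fun x : K => x⁻¹ * σ x) '' Sᶜ) :=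
    (hS.isClosed_compl.isCompact).image hg
  have hopen : IsOpen ((fun x : K => x⁻¹ * σ x) '' Sᶜ)ᶜ := hcomp.isClosed.isOpen_compl
  have h1 : (1 : K) ∈ ((fun x : K => x⁻¹ * σ x) '' Sᶜ)ᶜ := by
    rintro ⟨x, hx, h⟩
    refine hx (hfix x ?_)
    have h2 : x⁻¹ * σ x = 1 := h
    rw [inv_mul_eq_one] at h2
    exact h2.symm
  obtain ⟨N₀, hN₀⟩ := ProfiniteGrp.exist_openNormalSubgroup_sub_open_nhds_of_one hopen h1
  have hper : ∀ (i : ℕ) (x : K), (σ ^ i) x = (σ ^ (i % p)) x := by
    intro i x
    conv_lhs => rw [← Nat.mod_add_div i p, pow_add, pow_mul, hσp, one_pow, mul_one]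
  let N : Subgroup K := ⨅ i : ℕ, (N₀ : Subgroup K).comap (σ ^ i).toMonoidHom
  have hmem : ∀ x, x ∈ N ↔ ∀ i : ℕ, (σ ^ i) x ∈ (N₀ : Subgroup K) := by
    intro x
    simp only [N, Subgroup.mem_iInf, Subgroup.mem_comap]
    rfl
  have hnorm : (N₀ : Subgroup K).Normal := N₀.isNormal'
  have hcont : ∀ i : ℕ, Continuous (σ ^ i : MulAut K) := by
    intro i
    induction i with
    | zero => exact continuous_id
    | succ i ih =>
      rw [pow_succ]
      exact ih.comp hσ
  refine ⟨N, ?_, ?_, ?_, ?_⟩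
  · refine ⟨fun x hx y => ?_⟩
    rw [hmem] at hx ⊢
    intro i
    rw [map_mul, map_mul, map_inv]
    exact hnorm.conj_mem _ (hx i) _
  · have : (N : Set K) = ⋂ i : Fin p, (σ ^ (i : ℕ) : MulAut K) ⁻¹' (N₀ : Set K) := by
      ext x
      simp only [Set.mem_iInter, Set.mem_preimage, SetLike.mem_coe]
      rw [hmem]
      constructor
      · intro h i
        exact h i
      · intro h i
        rw [hper]
        exact h ⟨i % p, Nat.mod_lt _ hp0⟩
    rw [this]
    exact isOpen_iInter_of_finite fun i => N₀.isOpen'.preimage (hcont i)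
  · intro x hx
    rw [hmem] at hx ⊢
    intro i
    have := hx (i + 1)
    rw [pow_succ] at this
    exact this
  · intro x hx
    by_contra hxS
    have h3 : x⁻¹ * σ x ∈ (N₀ : Set K) := (hmem _).mp hx 0
    exact hN₀ h3 ⟨x, hxS, rfl⟩

/-- the subgroup of the elements fixed modulo `N` -/
def fixMod (σ : MulAut K) (N : Subgroup K) (hN : N.Normal) : Subgroup K where
  carrier := {x | x⁻¹ * σ x ∈ N}
  one_mem' := by simp
  mul_mem' := by
    intro x y hx hy
    have hx' : x⁻¹ * σ x ∈ N := hx
    have hy' : y⁻¹ * σ y ∈ N := hy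
    change (x * y)⁻¹ * σ (x * y) ∈ N
    have : (x * y)⁻¹ * σ (x * y) = (y⁻¹ * (x⁻¹ * σ x) * y⁻¹⁻¹) * (y⁻¹ * σ y) := by
      rw [map_mul]; group
    rw [this]
    exact N.mul_mem (hN.conj_mem _ hx' _) hy'
  inv_mem' := by
    intro x hx
    have hx' : x⁻¹ * σ x ∈ N := hx
    change (x⁻¹)⁻¹ * σ x⁻¹ ∈ N
    have : (x⁻¹)⁻¹ * σ x⁻¹ = x * (x⁻¹ * σ x)⁻¹ * x⁻¹ := by
      rw [map_inv]; group
    rw [this]
    exact hN.conj_mem _ (N.inv_mem hx') _

omit [TopologicalSpace K] [IsTopologicalGroup K] [CompactSpace K]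
  [T2Space K] [TotallyDisconnectedSpace K] in
theorem mem_fixMod {σ : MulAut K} {N : Subgroup K} {hN : N.Normal} {x : K} :
    x ∈ fixMod σ N hN ↔ x⁻¹ * σ x ∈ N := Iff.rfl

omit [TopologicalSpace K] [IsTopologicalGroup K] [CompactSpace K]
  [T2Space K] [TotallyDisconnectedSpace K] in
/-- the only coset of `fixMod` fixed by `σ` is the trivial one -/
theorem fixMod_fixed (p : ℕ) [hp : Fact p.Prime] (σ : MulAut K) (hσp : σ ^ p = 1) (N : Subgroup K)
    (hN : N.Normal) (hidx : ¬ p ∣ N.index) (hst : ∀ x ∈ N, σ x ∈ N) (x : K)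
    (hx : x⁻¹ * σ x ∈ fixMod σ N hN) : x ∈ fixMod σ N hN := by
  have hle : N ≤ N.comap σ.toMonoidHom := fun y hy => hst y hy
  let σ' : K ⧸ N →* K ⧸ N := QuotientGroup.map N N σ.toMonoidHom hle
  have h1 : ∀ y : K, σ' (y : K ⧸ N) = ((σ y : K) : K ⧸ N) := fun y => rfl
  set m : K := x⁻¹ * σ x with hm
  have h2 : σ' (m : K ⧸ N) = (m : K ⧸ N) := by
    rw [h1]
    exact (QuotientGroup.eq.mpr (mem_fixMod.mp hx)).symm
  have h3 : σ' (x : K ⧸ N) = (x : K ⧸ N) * (m : K ⧸ N) := by
    rw [h1, hm, ← QuotientGroup.mk_mul]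
    congr 1
    group
  have h4 : ∀ i : ℕ, (((σ ^ i) x : K) : K ⧸ N) = (x : K ⧸ N) * (m : K ⧸ N) ^ i := by
    intro i
    induction i with
    | zero => simp
    | succ i ih =>
      have : (σ ^ (i + 1)) x = σ ((σ ^ i) x) := by
        rw [pow_succ']; rfl
      rw [this, ← h1, ih, map_mul, map_pow, h2, h3, pow_succ', mul_assoc]
  have h5 : (m : K ⧸ N) ^ p = 1 := by
    have := h4 p
    rw [hσp] at this
    have h6 : (x : K ⧸ N) = (x : K ⧸ N) * (m : K ⧸ N) ^ p := this
    exact (left_eq_mul.mp h6)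
  have h7 : (m : K ⧸ N) ^ N.index = 1 := by
    rw [Subgroup.index]
    exact pow_card_eq_one'
  have h8 : Nat.Coprime p N.index := (hp.out.coprime_iff_not_dvd).mpr hidx
  have h9 : (m : K ⧸ N) = 1 := by
    have := pow_gcd_eq_one.mpr ⟨h5, h7⟩
    rwa [h8.gcd_eq_one, pow_one] at this
  rw [mem_fixMod, ← hm]
  exact (QuotientGroup.eq_one_iff m).mp h9

end

end Pool.Agent.J4H10.TV
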