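import Mathlib

/-!
# Smooth and admissible representations, Tate cohomology: definitions
-/

set_option autoImplicit false

namespace Pool.Agent.J4H10.TV

open Finset

variable {k : Type*} [Field k] {V : Type*} [AddCommGroup V] [Module k V]

/-- the norm `1 + τ + ... + τ ^ (p - 1)` -/
noncomputable def nm (p : ℕ) (τ : Module.End k V) : Module.End k V := ∑ i ∈ range p, τ ^ i

/-- `ker A / (im B ∩ ker A)` -/
abbrev Coh (A B : Module.End k V) : Type _ :=
  LinearMap.ker A ⧸ (LinearMap.range B).comap (LinearMap.ker A).subtype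

section

variable {G : Type*} [Group G]

/-- the vectors fixed by the subgroup `K` -/
def inv (ρ : Representation k G V) (K : Subgroup G) : Submodule k V where
  carrier := {v | ∀ g ∈ K, ρ g v = v}
  zero_mem' := fun g _ => map_zero (ρ g)
  add_mem' := by
    intro a b ha hb g hg
    rw [map_add, ha g hg, hb g hg]
  smul_mem' := by
    intro c a ha g hg
    rw [map_smul, ha g hg]

/-- every vector has open stabiliser -/
def Smooth [TopologicalSpace G] (ρ : Representation k G V) : Prop :=
  ∀ v : V, IsOpen {g : G | ρ g v = v}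

/-- smooth, and the vectors fixed by any compact open subgroup are of finite dimension -/
def Admissible [TopologicalSpace G] (ρ : Representation k G V) : Prop :=
  Smooth ρ ∧ ∀ K : Subgroup G, IsOpen (K : Set G) → IsCompact (K : Set G) →
    FiniteDimensional k (inv ρ K)

/-- irreducible: not zero, and without proper nonzero invariant subspace -/
def Irred (ρ : Representation k G V) : Prop :=
  Nontrivial V ∧ ∀ W : Submodule k V, (∀ g, ∀ w ∈ W, ρ g w ∈ W) → W = ⊥ ∨ W = ⊤

/-- the subgroup of the elements fixed by the automorphism `σ` -/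
def fixedBy (σ : MulAut G) : Subgroup G where
  carrier := {g | σ g = g}
  one_mem' := map_one σ
  mul_mem' := by
    intro a b ha hb
    have ha' : σ a = a := ha
    have hb' : σ b = b := hb
    change σ (a * b) = a * b
    rw [map_mul, ha', hb']
  inv_mem' := by
    intro a ha
    have ha' : σ a = a := ha
    change σ a⁻¹ = a⁻¹
    rw [map_inv, ha']

/-- `τ` extends the action `ρ` of `G` to the semidirect product with the group of order `p`
generated by `σ`: `τ ρ(g) τ⁻¹ = ρ(σ(g))` and `τ ^ p = 1` -/
def Extends (p : ℕ) (σ : MulAut G) (ρ : Representation k G V) (τ : Module.End k V) : Prop :=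
  (∀ g v, τ (ρ g v) = ρ (σ g) (τ v)) ∧ τ ^ p = 1

variable {p : ℕ} {σ : MulAut G} {ρ : Representation k G V} {τ : Module.End k V}

theorem Extends.comm (h : Extends p σ ρ τ) (g : fixedBy σ) (v : V) :
    τ (ρ g v) = ρ g (τ v) := by
  have hg : σ (g : G) = g := g.2
  rw [h.1, hg]

theorem Extends.comm_pow (h : Extends p σ ρ τ) (g : fixedBy σ) (i : ℕ) (v : V) :
    (τ ^ i) (ρ g v) = ρ g ((τ ^ i) v) := by
  induction i with
  | zero => rfl
  | succ i ih => rw [pow_succ', Module.End.mul_apply, ih, h.comm, Module.End.mul_apply]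

theorem Extends.comm_sub (h : Extends p σ ρ τ) (g : fixedBy σ) (v : V) :
    (1 - τ) (ρ g v) = ρ g ((1 - τ) v) := by
  rw [LinearMap.sub_apply, LinearMap.sub_apply, map_sub, h.comm]
  rfl

theorem Extends.comm_nm (h : Extends p σ ρ τ) (g : fixedBy σ) (v : V) :
    (nm p τ) (ρ g v) = ρ g ((nm p τ) v) := by
  simp only [nm, LinearMap.sum_apply, map_sum]
  exact Finset.sum_congr rfl fun i _ => h.comm_pow g i v

/-- the action of `H` on `ker A / (im B ∩ ker A)`, for `A`, `B` commuting with `H`:
`h [v] = [h v]` -/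
noncomputable def cohRep {H : Type*} [Group H] (ρ : Representation k H V) (A B : Module.End k V)
    (hA : ∀ h v, A (ρ h v) = ρ h (A v)) (hB : ∀ h v, B (ρ h v) = ρ h (B v)) :
    Representation k H (Coh A B) where
  toFun h := Submodule.mapQ _ _
    ((ρ h).restrict (p := LinearMap.ker A) (q := LinearMap.ker A) (fun v hv => by
      rw [LinearMap.mem_ker] at hv ⊢
      rw [hA, hv, map_zero]))
    (by
      rintro ⟨v, hv⟩ ⟨w, hw⟩
      exact ⟨ρ h w, by rw [hB, hw]; rfl⟩)
  map_one' := by
    ext ⟨v, hv⟩
    simp [LinearMap.restrict_apply]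
  map_mul' := by
    intro a b
    ext ⟨v, hv⟩
    simp [LinearMap.restrict_apply]

theorem cohRep_mk {H : Type*} [Group H] (ρ : Representation k H V) (A B : Module.End k V)
    (hA : ∀ h v, A (ρ h v) = ρ h (A v)) (hB : ∀ h v, B (ρ h v) = ρ h (B v)) (h : H) (v : V)
    (hv : v ∈ LinearMap.ker A) (hv' : ρ h v ∈ LinearMap.ker A) :
    cohRep ρ A B hA hB h (Submodule.Quotient.mk ⟨v, hv⟩) = Submodule.Quotient.mk ⟨ρ h v, hv'⟩ :=
  rfl

/-- `T⁰ = ker (1 - τ) / im N` as a representation of the fixed subgroup of `σ` -/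
noncomputable def tate0 (h : Extends p σ ρ τ) :
    Representation k (fixedBy σ) (Coh (1 - τ) (nm p τ)) :=
  cohRep (ρ.comp (fixedBy σ).subtype) _ _ h.comm_sub h.comm_nm

/-- `T¹ = ker N / im (1 - τ)` as a representation of the fixed subgroup of `σ` -/
noncomputable def tate1 (h : Extends p σ ρ τ) :
    Representation k (fixedBy σ) (Coh (nm p τ) (1 - τ)) :=
  cohRep (ρ.comp (fixedBy σ).subtype) _ _ h.comm_nm h.comm_sub

/-- the group `G` has a compact open subgroup all whose open subgroups have index prime to `p` -/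
def LocallyPrimeTo (p : ℕ) (G : Type*) [Group G] [TopologicalSpace G] : Prop :=
  ∃ K : Subgroup G, IsOpen (K : Set G) ∧ IsCompact (K : Set G) ∧
    ∀ N : Subgroup G, IsOpen (N : Set G) → N ≤ K → ¬ p ∣ N.relIndex K

end

end Pool.Agent.J4H10.TV
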