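import Mathlib
import Pool.Agent.J4H10.TV.Core
import Pool.Agent.J4H10.TV.Defs

/-!
# Coprime action and Tate cohomology: invariants modulo norms
-/

set_option autoImplicit false

namespace Pool.Agent.J4H10.TV

open Finset

section

variable {k V : Type*} [Field k] [AddCommGroup V] [Module k V]


theorem nm_apply (p : ℕ) (τ : Module.End k V) (v : V) : nm p τ v = ∑ i ∈ range p, (τ ^ i) v := by
  simp [nm, LinearMap.sum_apply]

theorem pow_sub_one_mem (τ : Module.End k V) (i : ℕ) (u : V) :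
    (τ ^ i) u - u ∈ LinearMap.range (1 - τ) := by
  induction i with
  | zero => simp
  | succ i ih =>
    have : (τ ^ (i + 1)) u - u = ((τ ^ i) u - u) - (1 - τ) ((τ ^ i) u) := by
      rw [pow_succ', Module.End.mul_apply, LinearMap.sub_apply, Module.End.one_apply]
      abel
    rw [this]
    exact Submodule.sub_mem _ ih ⟨_, rfl⟩

variable {K : Type*} [Group K] (ρ : Representation k K V)

theorem out_smul (M : Subgroup K) (w : V) (hw : ∀ m ∈ M, ρ m w = w) (x : K) :
    ρ (Quotient.out (x : K ⧸ M)) w = ρ x w := by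
  obtain ⟨m, hm⟩ := QuotientGroup.mk_out_eq_mul M x
  have : (Quotient.out (x : K ⧸ M)) = x * m := hm
  rw [this, map_mul, Module.End.mul_apply, hw m m.2]

/-- the core of the argument -/
theorem core_sum (p : ℕ) [hp : Fact p.Prime] (σ : MulAut K) (hσp : σ ^ p = 1)
    (τ : Module.End k V) (hτ : ∀ x v, τ (ρ x v) = ρ (σ x) (τ v)) (hτp : τ ^ p = 1)
    (M : Subgroup K) [Finite (K ⧸ M)] (hMσ : ∀ x ∈ M, σ x ∈ M)
    (hfix : ∀ x, x⁻¹ * σ x ∈ M → x ∈ M) (v : V) (hv : ∀ m ∈ M, ρ m v = v) :
    (τ v = v → ∃ s, (∀ x, ρ x s = s) ∧ τ s = s ∧ v - s ∈ LinearMap.range (nm p τ)) ∧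
    (nm p τ v = 0 → ∃ s, (∀ x, ρ x s = s) ∧ nm p τ s = 0 ∧
      v - s ∈ LinearMap.range (1 - τ)) := by
  classical
  have := Fintype.ofFinite (K ⧸ M)
  -- powers of `τ`
  have hτi : ∀ (i : ℕ) (x : K) (w : V), (τ ^ i) (ρ x w) = ρ ((σ ^ i) x) ((τ ^ i) w) := by
    intro i
    induction i with
    | zero => intro x w; rfl
    | succ i ih =>
      intro x w
      rw [pow_succ', Module.End.mul_apply, ih, hτ, pow_succ', Module.End.mul_apply]
      rfl
  have hσi : ∀ (i : ℕ) (x : K), x ∈ M → (σ ^ i) x ∈ M := by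
    intro i
    induction i with
    | zero => intro x hx; exact hx
    | succ i ih =>
      intro x hx
      rw [pow_succ']
      exact hMσ _ (ih x hx)
  have hsurj : ∀ (i : ℕ) (x : K), x ∈ M → ∃ y ∈ M, (σ ^ i) y = x := by
    intro i x hx
    refine ⟨(σ ^ (i * (p - 1))) x, hσi _ _ hx, ?_⟩
    have : (σ ^ i) ((σ ^ (i * (p - 1))) x) = (σ ^ (i + i * (p - 1))) x := by
      rw [pow_add]; rfl
    rw [this]
    have h2 : i + i * (p - 1) = p * i := by
      have h3 := hp.out.pos
      obtain ⟨q, rfl⟩ : ∃ q, p = q + 1 := ⟨p - 1, by omega⟩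
      simp only [Nat.add_sub_cancel]
      ring
    rw [h2, pow_mul, hσp, one_pow]
    rfl
  have hMfix : ∀ (i : ℕ) (w : V), (∀ m ∈ M, ρ m w = w) → ∀ m ∈ M, ρ m ((τ ^ i) w) = (τ ^ i) w := by
    intro i w hw m hm
    obtain ⟨y, hy, rfl⟩ := hsurj i m hm
    rw [← hτi, hw y hy]
  -- the action on the cosets
  let s : K ⧸ M → K ⧸ M := Quotient.map' σ (by
    intro a b h
    rw [QuotientGroup.leftRel_apply] at h ⊢
    rw [← map_inv, ← map_mul]
    exact hMσ _ h)
  have hs : ∀ x : K, s (x : K ⧸ M) = ((σ x : K) : K ⧸ M) := fun x => rfl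
  have hsi : ∀ (i : ℕ) (x : K), s^[i] (x : K ⧸ M) = (((σ ^ i) x : K) : K ⧸ M) := by
    intro i
    induction i with
    | zero => intro x; rfl
    | succ i ih =>
      intro x
      rw [Function.iterate_succ_apply', ih, hs, pow_succ']
      rfl
  have hsp : ∀ q, s^[p] q = q := by
    intro q
    obtain ⟨x, rfl⟩ := QuotientGroup.mk_surjective q
    rw [hsi, hσp]
    rfl
  have hbij : Function.Bijective s := by
    have h1 : s^[p] = id := funext hsp
    refine ⟨?_, ?_⟩
    · intro a b hab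
      have : s^[p - 1] (s a) = s^[p - 1] (s b) := by rw [hab]
      rw [← Function.iterate_succ_apply, ← Function.iterate_succ_apply,
        show (p - 1).succ = p from Nat.succ_pred_eq_of_pos hp.out.pos, hsp, hsp] at this
      exact this
    · intro a
      refine ⟨s^[p - 1] a, ?_⟩
      have h2 := Function.iterate_succ_apply' s (p - 1) a
      rw [show (p - 1).succ = p from Nat.succ_pred_eq_of_pos hp.out.pos, hsp] at h2
      exact h2.symm
  have hbiji : ∀ i, Function.Bijective (s^[i]) := fun i => hbij.iterate i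
  have hsfix : ∀ q, s q = q → q = ((1 : K) : K ⧸ M) := by
    intro q hq
    obtain ⟨x, rfl⟩ := QuotientGroup.mk_surjective q
    rw [hs] at hq
    have h1 : x⁻¹ * σ x ∈ M := QuotientGroup.eq.mp hq.symm
    have h2 := hfix x h1
    refine (QuotientGroup.eq.mpr ?_)
    simpa using h2
  -- the function on the cosets
  let F : V → K ⧸ M → V := fun w q => ρ (Quotient.out q) w
  have hF : ∀ w, (∀ m ∈ M, ρ m w = w) → ∀ x : K, F w (x : K ⧸ M) = ρ x w :=
    fun w hw x => out_smul ρ M w hw x
  have hFτ : ∀ w, (∀ m ∈ M, ρ m w = w) → ∀ (i : ℕ) (q : K ⧸ M),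
      (τ ^ i) (F w q) = F ((τ ^ i) w) (s^[i] q) := by
    intro w hw i q
    obtain ⟨x, rfl⟩ := QuotientGroup.mk_surjective q
    rw [hF w hw, hsi, hF _ (hMfix i w hw), hτi]
  set t : V := ∑ q : K ⧸ M, F v q with ht
  have htK : ∀ y : K, ρ y t = t := by
    intro y
    rw [ht, map_sum]
    have h1 : ∀ q : K ⧸ M, ρ y (F v q) = F v (y • q) := by
      intro q
      obtain ⟨x, rfl⟩ := QuotientGroup.mk_surjective q
      have : y • (x : K ⧸ M) = ((y * x : K) : K ⧸ M) := rfl
      rw [this, hF v hv, hF v hv, map_mul, Module.End.mul_apply]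
    rw [Finset.sum_congr rfl fun q _ => h1 q]
    exact Equiv.sum_comp (MulAction.toPerm (α := K) (β := K ⧸ M) y) (F v)
  have hsplit : v - t = - ∑ q ∈ Finset.univ.erase ((1 : K) : K ⧸ M), F v q := by
    rw [ht, ← Finset.add_sum_erase _ _ (Finset.mem_univ ((1 : K) : K ⧸ M)), hF v hv]
    rw [map_one, Module.End.one_apply]
    abel
  have hY : ∀ q ∈ Finset.univ.erase ((1 : K) : K ⧸ M),
      s q ∈ Finset.univ.erase ((1 : K) : K ⧸ M) ∧ s q ≠ q := by
    intro q hq
    have hq1 : q ≠ ((1 : K) : K ⧸ M) := Finset.ne_of_mem_erase hq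
    have h1 : s ((1 : K) : K ⧸ M) = ((1 : K) : K ⧸ M) := by
      rw [hs, map_one]
    refine ⟨Finset.mem_erase.mpr ⟨fun h => hq1 (hbij.1 (h.trans h1.symm)), Finset.mem_univ _⟩,
      fun h => hq1 (hsfix q h)⟩
  constructor
  · intro hvτ
    have hvi : ∀ i : ℕ, (τ ^ i) v = v := by
      intro i
      induction i with
      | zero => rfl
      | succ i ih => rw [pow_succ', Module.End.mul_apply, ih, hvτ]
    refine ⟨t, htK, ?_, ?_⟩
    · rw [ht, map_sum]
      have h1 : ∀ q : K ⧸ M, τ (F v q) = F v (s q) := by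
        intro q
        have := hFτ v hv 1 q
        rw [pow_one, hvτ] at this
        exact this
      rw [Finset.sum_congr rfl fun q _ => h1 q]
      exact Equiv.sum_comp (Equiv.ofBijective s hbij) (F v)
    · rw [hsplit]
      refine Submodule.neg_mem _ (sum_mem_of_free p s hsp _ (F v) ?_ _ _ rfl hY)
      intro q _
      refine ⟨F v q, ?_⟩
      rw [nm_apply]
      refine Finset.sum_congr rfl fun i _ => ?_
      rw [hFτ v hv, hvi]
  · intro hvN
    refine ⟨t, htK, ?_, ?_⟩
    · rw [nm_apply]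
      have h1 : ∀ i : ℕ, (τ ^ i) t = ∑ q : K ⧸ M, F ((τ ^ i) v) q := by
        intro i
        rw [ht, map_sum, Finset.sum_congr rfl fun q _ => hFτ v hv i q]
        exact Equiv.sum_comp (Equiv.ofBijective _ (hbiji i)) (F ((τ ^ i) v))
      rw [Finset.sum_congr rfl fun i _ => h1 i, Finset.sum_comm]
      refine Finset.sum_eq_zero fun q _ => ?_
      have : ∑ i ∈ range p, F ((τ ^ i) v) q = ρ (Quotient.out q) (nm p τ v) := by
        rw [nm_apply, map_sum]
      rw [this, hvN, map_zero]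
    · rw [hsplit]
      refine Submodule.neg_mem _ (sum_mem_of_free p s hsp _ (F v) ?_ _ _ rfl hY)
      intro q _
      obtain ⟨x, rfl⟩ := QuotientGroup.mk_surjective q
      -- `F v (s^[i] x) = τ ^ i (ρ x (τ ^ (p - i) v))`
      have h1 : ∀ i ∈ range p, F v (s^[i] (x : K ⧸ M)) = (τ ^ i) (ρ x ((τ ^ (p - i)) v)) := by
        intro i hi
        rw [hτi, hsi, hF v hv]
        congr 1
        rw [← Module.End.mul_apply, ← pow_add, Nat.add_sub_cancel' (mem_range.mp hi).le, hτp]
        rfl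
      have h2 : ∑ i ∈ range p, ρ x ((τ ^ (p - i)) v) = 0 := by
        rw [← map_sum]
        have h3 : ∑ i ∈ range p, (τ ^ (p - i)) v = τ (nm p τ v) := by
          rw [nm_apply, map_sum, ← Finset.sum_range_reflect]
          refine Finset.sum_congr rfl fun i hi => ?_
          rw [← Module.End.mul_apply, ← pow_succ']
          have h4 := mem_range.mp hi
          have h5 : p - (p - 1 - i) = i + 1 := by omega
          rw [h5]
        rw [h3, hvN, map_zero, map_zero]
      have h3 : ∑ i ∈ range p, F v (s^[i] (x : K ⧸ M)) =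
          ∑ i ∈ range p, ((τ ^ i) (ρ x ((τ ^ (p - i)) v)) - ρ x ((τ ^ (p - i)) v)) := by
        rw [Finset.sum_sub_distrib, h2, sub_zero]
        exact Finset.sum_congr rfl h1
      rw [h3]
      exact Submodule.sum_mem _ fun i _ => pow_sub_one_mem τ i _

end

end Pool.Agent.J4H10.TV
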