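import Mathlib
import Pool.Agent.J4H10.TV.Core2

/-!
# Averaging over the fixed subgroup, and the combined statement for a profinite group
-/

set_option autoImplicit false

namespace Pool.Agent.J4H10.TV

open Finset

section

variable {K : Type*} [Group K] [TopologicalSpace K] [IsTopologicalGroup K] [CompactSpace K]
  [T2Space K] [TotallyDisconnectedSpace K]

theorem finite_quot_of_isOpen (N : Subgroup K) (hN : IsOpen (N : Set K)) : Finite (K ⧸ N) :=
  Subgroup.quotient_finite_of_isOpen N hN

variable {k V : Type*} [Field k] [AddCommGroup V] [Module k V] (ρ : Representation k K V)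

/-- replace a vector whose class modulo `R` is fixed by `L` by a fixed vector -/
theorem exists_avg (p : ℕ) (hK : ∀ N : Subgroup K, IsOpen (N : Set K) → ¬ p ∣ N.index)
    (L : Subgroup K) (A : Module.End k V) (R : Submodule k V)
    (hA : ∀ x ∈ L, ∀ w, A (ρ x w) = ρ x (A w)) (v : V) (hv : IsOpen {x | ρ x v = v})
    (hvA : A v = 0) (hvR : ∀ x ∈ L, ρ x v - v ∈ R) :
    ∃ (n : ℕ) (w : V), ¬ p ∣ n ∧ (∀ x ∈ L, ρ x w = w) ∧ A w = 0 ∧ w - n • v ∈ R ∧
      IsOpen {x | ρ x w = w} := by
  classical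
  obtain ⟨N, hN⟩ := ProfiniteGrp.exist_openNormalSubgroup_sub_open_nhds_of_one hv
    (show (1 : K) ∈ {x | ρ x v = v} by simp)
  have hNn : (N : Subgroup K).Normal := N.isNormal'
  have hNo : IsOpen ((N : Subgroup K) : Set K) := N.isOpen'
  have hNv : ∀ x ∈ (N : Subgroup K), ρ x v = v := fun x hx => hN hx
  have := finite_quot_of_isOpen _ hNo
  set L' : Subgroup L := (N : Subgroup K).subgroupOf L with hL'
  have hdvd : L'.index ∣ (N : Subgroup K).index := Subgroup.relIndex_dvd_index_of_normal _ _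
  have hne : (N : Subgroup K).index ≠ 0 := by
    rw [Subgroup.index]
    exact Nat.card_pos.ne'
  have hne' : L'.index ≠ 0 := fun h => hne (Nat.eq_zero_of_zero_dvd (h ▸ hdvd))
  have hfin : Finite (L ⧸ L') := Nat.finite_of_card_ne_zero hne'
  have := Fintype.ofFinite (L ⧸ L')
  have hout : ∀ x : L, ρ (Quotient.out (x : L ⧸ L') : L) v = ρ (x : K) v := by
    intro x
    exact out_smul (ρ.comp L.subtype) L' v (fun m hm => hNv _ hm) x
  set w : V := ∑ q : L ⧸ L', ρ (Quotient.out q : L) v with hw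
  refine ⟨L'.index, w, fun h => hK _ hNo (h.trans hdvd), ?_, ?_, ?_, ?_⟩
  · intro x hx
    rw [hw, map_sum]
    have h1 : ∀ q : L ⧸ L', ρ x (ρ (Quotient.out q : L) v) =
        ρ (Quotient.out ((⟨x, hx⟩ : L) • q) : L) v := by
      intro q
      obtain ⟨y, rfl⟩ := QuotientGroup.mk_surjective q
      have : (⟨x, hx⟩ : L) • (y : L ⧸ L') = (((⟨x, hx⟩ : L) * y : L) : L ⧸ L') := rfl
      rw [this, hout, hout]
      change ρ x (ρ (y : K) v) = ρ (x * (y : K)) v
      rw [map_mul, Module.End.mul_apply]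
    rw [Finset.sum_congr rfl fun q _ => h1 q]
    exact Equiv.sum_comp (MulAction.toPerm (α := L) (β := L ⧸ L') ⟨x, hx⟩)
      (fun q => ρ (Quotient.out q : L) v)
  · rw [hw, map_sum]
    refine Finset.sum_eq_zero fun q _ => ?_
    rw [hA _ (Quotient.out q : L).2, hvA, map_zero]
  · have h1 : w - L'.index • v = ∑ q : L ⧸ L', (ρ (Quotient.out q : L) v - v) := by
      rw [Finset.sum_sub_distrib, ← hw]
      congr 1
      rw [Finset.sum_const, Finset.card_univ, ← Nat.card_eq_fintype_card]
      rfl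
    rw [h1]
    exact Submodule.sum_mem _ fun q _ => hvR _ (Quotient.out q : L).2
  · -- the stabiliser contains `N`
    let S : Subgroup K :=
      { carrier := {x | ρ x w = w}
        one_mem' := by simp
        mul_mem' := by
          intro a b ha hb
          have ha' : ρ a w = w := ha
          have hb' : ρ b w = w := hb
          change ρ (a * b) w = w
          rw [map_mul, Module.End.mul_apply, hb', ha']
        inv_mem' := by
          intro a ha
          have ha' : ρ a w = w := ha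
          change ρ a⁻¹ w = w
          conv_lhs => rw [← ha']
          rw [← Module.End.mul_apply, ← map_mul, inv_mul_cancel, map_one, Module.End.one_apply] }
    have hNS : (N : Subgroup K) ≤ S := by
      intro x hx
      change ρ x w = w
      rw [hw, map_sum]
      refine Finset.sum_congr rfl fun q _ => ?_
      have h2 : x * (Quotient.out q : L) = (Quotient.out q : L) *
          (((Quotient.out q : L) : K)⁻¹ * x * ((Quotient.out q : L) : K)) := by group
      rw [← Module.End.mul_apply, ← map_mul, h2, map_mul, Module.End.mul_apply]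
      congr 1
      refine hNv _ ?_
      have := hNn.conj_mem x hx (((Quotient.out q : L) : K)⁻¹)
      rwa [inv_inv] at this
    exact Subgroup.isOpen_mono hNS hNo

/-- the combined statement -/
theorem exists_inv (p : ℕ) [hp : Fact p.Prime]
    (hK : ∀ N : Subgroup K, IsOpen (N : Set K) → ¬ p ∣ N.index)
    (σ : MulAut K) (hσ : Continuous σ) (hσp : σ ^ p = 1)
    (τ : Module.End k V) (hτ : ∀ x v, τ (ρ x v) = ρ (σ x) (τ v)) (hτp : τ ^ p = 1)
    (v : V) (hv : IsOpen {x | ρ x v = v}) :
    (τ v = v → (∀ x, σ x = x → ρ x v - v ∈ LinearMap.range (nm p τ)) →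
      ∃ (n : ℕ) (s : V), ¬ p ∣ n ∧ (∀ x, ρ x s = s) ∧ τ s = s ∧
        n • v - s ∈ LinearMap.range (nm p τ)) ∧
    (nm p τ v = 0 → (∀ x, σ x = x → ρ x v - v ∈ LinearMap.range (1 - τ)) →
      ∃ (n : ℕ) (s : V), ¬ p ∣ n ∧ (∀ x, ρ x s = s) ∧ nm p τ s = 0 ∧
        n • v - s ∈ LinearMap.range (1 - τ)) := by
  let L : Subgroup K :=
    { carrier := {x | σ x = x}
      one_mem' := map_one σ
      mul_mem' := by
        intro a b ha hb
        have ha' : σ a = a := ha
        have hb' : σ b = b := hb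
        change σ (a * b) = a * b
        rw [map_mul, ha', hb']
      inv_mem' := by
        intro a ha
        have ha' : σ a = a := ha
        change σ a⁻¹ = a⁻¹
        rw [map_inv, ha'] }
  have hLτ : ∀ x ∈ L, ∀ w, τ (ρ x w) = ρ x (τ w) := by
    intro x hx w
    have hx' : σ x = x := hx
    rw [hτ, hx']
  have hLτi : ∀ i : ℕ, ∀ x ∈ L, ∀ w, (τ ^ i) (ρ x w) = ρ x ((τ ^ i) w) := by
    intro i
    induction i with
    | zero => intro x _ w; rfl
    | succ i ih =>
      intro x hx w
      rw [pow_succ', Module.End.mul_apply, ih x hx, hLτ x hx, Module.End.mul_apply]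
  have hL1 : ∀ x ∈ L, ∀ w, (1 - τ) (ρ x w) = ρ x ((1 - τ) w) := by
    intro x hx w
    rw [LinearMap.sub_apply, LinearMap.sub_apply, map_sub, hLτ x hx]
    rfl
  have hLn : ∀ x ∈ L, ∀ w, (nm p τ) (ρ x w) = ρ x ((nm p τ) w) := by
    intro x hx w
    rw [nm_apply, nm_apply, map_sum]
    exact Finset.sum_congr rfl fun i _ => hLτi i x hx w
  -- the common part: from an `L`-fixed vector to a `K`-fixed one
  have hcore : ∀ w : V, IsOpen {x | ρ x w = w} → (∀ x ∈ L, ρ x w = w) →
      (τ w = w → ∃ s, (∀ x, ρ x s = s) ∧ τ s = s ∧ w - s ∈ LinearMap.range (nm p τ)) ∧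
      (nm p τ w = 0 → ∃ s, (∀ x, ρ x s = s) ∧ nm p τ s = 0 ∧
        w - s ∈ LinearMap.range (1 - τ)) := by
    intro w hw hwL
    obtain ⟨N, hNn, hNo, hNσ, hNS⟩ := exists_stable p hp.out.pos σ hσ hσp {x | ρ x w = w} hw
      (fun x hx => hwL x hx)
    set M := fixMod σ N hNn with hM
    have hNM : N ≤ M := by
      intro x hx
      rw [hM, mem_fixMod]
      exact N.mul_mem (N.inv_mem hx) (hNσ x hx)
    have hMo : IsOpen (M : Set K) := Subgroup.isOpen_mono hNM hNo
    have := finite_quot_of_isOpen M hMo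
    refine core_sum ρ p σ hσp τ hτ hτp M ?_ ?_ w ?_
    · intro x hx
      rw [hM, mem_fixMod] at hx ⊢
      rw [← map_inv, ← map_mul]
      exact hNσ _ hx
    · intro x hx
      exact fixMod_fixed p σ hσp N hNn (hK N hNo) hNσ x hx
    · intro m hm
      exact hNS m hm
  constructor
  · intro hvτ hvR
    obtain ⟨n, w, hn, hwL, hwA, hwR, hwo⟩ := exists_avg ρ p hK L (1 - τ) _ hL1 v hv
      (by rw [LinearMap.sub_apply, Module.End.one_apply, hvτ, sub_self]) (fun x hx => hvR x hx)
    have hwτ : τ w = w := by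
      rw [LinearMap.sub_apply, Module.End.one_apply, sub_eq_zero] at hwA
      exact hwA.symm
    obtain ⟨s, hs1, hs2, hs3⟩ := (hcore w hwo hwL).1 hwτ
    refine ⟨n, s, hn, hs1, hs2, ?_⟩
    have : n • v - s = (w - s) - (w - n • v) := by abel
    rw [this]
    exact Submodule.sub_mem _ hs3 hwR
  · intro hvN hvR
    obtain ⟨n, w, hn, hwL, hwA, hwR, hwo⟩ := exists_avg ρ p hK L (nm p τ) _ hLn v hv hvN
      (fun x hx => hvR x hx)
    obtain ⟨s, hs1, hs2, hs3⟩ := (hcore w hwo hwL).2 hwA
    refine ⟨n, s, hn, hs1, hs2, ?_⟩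
    have : n • v - s = (w - s) - (w - n • v) := by abel
    rw [this]
    exact Submodule.sub_mem _ hs3 hwR

end

end Pool.Agent.J4H10.TV
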