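import Mathlib
import Pool.Agent.J4H10.TV.Defs

/-!
# Closed subgroups of `GL_n` over a local field are locally of order prime to `p`
-/

set_option autoImplicit false

namespace Pool.Agent.J4H10.TV

open ValuativeRel Topology

section

variable (F : Type*) [Field F] [ValuativeRel F] [TopologicalSpace F]
  [IsNonarchimedeanLocalField F]

theorem t2_field : T2Space F := by
  let := IsTopologicalAddGroup.rightUniformSpace F
  have := isUniformAddGroup_of_addCommGroup (G := F)
  infer_instance

variable {F} in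
theorem isOpen_ball (γ : ValueGroupWithZero F) (hγ : γ ≠ 0) : IsOpen {x : F | valuation F x < γ} := by
  have h1 : ((Valuation.ltAddSubgroup (valuation F) (Units.mk0 γ hγ) : AddSubgroup F) : Set F) =
      {x : F | valuation F x < γ} := rfl
  rw [← h1]
  refine AddSubgroup.isOpen_of_mem_nhds _ (g := 0) ?_
  rw [h1]
  exact (IsValuativeTopology.hasBasis_nhds_zero' F).mem_of_mem hγ

theorem nonarch_field : NonarchimedeanAddGroup F where
  is_nonarchimedean := by
    intro U hU
    obtain ⟨γ, hγ, h⟩ := (IsValuativeTopology.hasBasis_nhds_zero' F).mem_iff.mp hU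
    refine ⟨⟨Valuation.ltAddSubgroup (valuation F) (Units.mk0 γ hγ), ?_⟩, h⟩
    exact isOpen_ball γ hγ

theorem td_field : TotallyDisconnectedSpace F := by
  have := t2_field F
  have := nonarch_field F
  infer_instance

variable (n : ℕ)

theorem t2_mat : T2Space (Matrix (Fin n) (Fin n) F) := by
  have := t2_field F
  infer_instance

theorem td_mat : TotallyDisconnectedSpace (Matrix (Fin n) (Fin n) F) := by
  have := td_field F
  exact inferInstanceAs (TotallyDisconnectedSpace (Fin n → Fin n → F))

theorem t2_gl : T2Space (GL (Fin n) F) := by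
  have := t2_mat F n
  infer_instance

theorem td_gl : TotallyDisconnectedSpace (GL (Fin n) F) := by
  have := td_mat F n
  refine ⟨?_⟩
  refine isTotallyDisconnected_of_image
    (f := fun g : GL (Fin n) F => (g : Matrix (Fin n) (Fin n) F))
    Units.continuous_val.continuousOn Units.val_injective ?_
  exact (isTotallyDisconnected_of_totallyDisconnectedSpace _)

end

section

variable {F : Type*} [Field F] [ValuativeRel F] {n : ℕ}

/-- all entries have valuation at most `c` -/
def Le (c : ValueGroupWithZero F) (M : Matrix (Fin n) (Fin n) F) : Prop :=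
  ∀ a b, valuation F (M a b) ≤ c

/-- all entries have valuation less than `1` -/
def Lt (M : Matrix (Fin n) (Fin n) F) : Prop := ∀ a b, valuation F (M a b) < 1

theorem Le.mul {c d : ValueGroupWithZero F} {M N : Matrix (Fin n) (Fin n) F} (hM : Le c M)
    (hN : Le d N) : Le (c * d) (M * N) := by
  intro a b
  rw [Matrix.mul_apply]
  refine Valuation.map_sum_le _ fun i _ => ?_
  rw [map_mul]
  exact mul_le_mul' (hM a i) (hN i b)

theorem Le.add {c : ValueGroupWithZero F} {M N : Matrix (Fin n) (Fin n) F} (hM : Le c M)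
    (hN : Le c N) : Le c (M + N) := by
  intro a b
  exact (Valuation.map_add _ _ _).trans (max_le (hM a b) (hN a b))

theorem le_one : Le 1 (1 : Matrix (Fin n) (Fin n) F) := by
  intro a b
  rw [Matrix.one_apply]
  split <;> simp

theorem Lt.le {M : Matrix (Fin n) (Fin n) F} (h : Lt M) : Le 1 M := fun a b => (h a b).le

theorem Lt.mul_right {M N : Matrix (Fin n) (Fin n) F} (hM : Lt M) (hN : Le 1 N) : Lt (M * N) := by
  intro a b
  rw [Matrix.mul_apply]
  refine Valuation.map_sum_lt _ one_ne_zero fun i _ => ?_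
  rw [map_mul]
  exact mul_lt_one_of_lt_of_le (hM a i) (hN i b)

theorem Lt.add {M N : Matrix (Fin n) (Fin n) F} (hM : Lt M) (hN : Lt N) : Lt (M + N) := by
  intro a b
  exact Valuation.map_add_lt _ (hM a b) (hN a b)

theorem Lt.of_sub_one {M : Matrix (Fin n) (Fin n) F} (h : Lt (M - 1)) : Le 1 M := by
  have : M = (M - 1) + 1 := by abel
  rw [this]
  exact h.le.add le_one

theorem Le.pow {c : ValueGroupWithZero F} {M : Matrix (Fin n) (Fin n) F} (hM : Le c M) (i : ℕ) :
    Le (c ^ i) (M ^ i) := by
  induction i with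
  | zero => simpa using le_one
  | succ i ih =>
    rw [pow_succ, pow_succ]
    exact ih.mul hM

theorem Le.mono {c d : ValueGroupWithZero F} {M : Matrix (Fin n) (Fin n) F} (hM : Le c M)
    (h : c ≤ d) : Le d M := fun a b => (hM a b).trans h

theorem Le.sum {ι : Type*} {c : ValueGroupWithZero F} (s : Finset ι)
    (M : ι → Matrix (Fin n) (Fin n) F) (hM : ∀ i ∈ s, Le c (M i)) : Le c (∑ i ∈ s, M i) := by
  intro a b
  rw [Matrix.sum_apply]
  exact Valuation.map_sum_le _ fun i hi => hM i hi a b

theorem natCast_le_one (m : ℕ) : valuation F (m : F) ≤ 1 := by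
  induction m with
  | zero => simp
  | succ m ih =>
    rw [Nat.cast_succ]
    exact (Valuation.map_add _ _ _).trans (max_le ih (by simp))

/-- raising to the power `ℓ` brings `1 + y` closer to `1` -/
theorem pow_close (ℓ : ℕ) (hℓ : ℓ.Prime) (c : ValueGroupWithZero F) (hc1 : c < 1)
    (hcℓ : valuation F (ℓ : F) ≤ c) (j : ℕ) (hj : 1 ≤ j) (M : Matrix (Fin n) (Fin n) F)
    (hM : Le (c ^ j) (M - 1)) : Le (c ^ (j + 1)) (M ^ ℓ - 1) := by
  set y := M - 1 with hy
  have hMy : M = y + 1 := by rw [hy]; abel
  have hexp : M ^ ℓ - 1 = ∑ i ∈ Finset.Ico 1 (ℓ + 1), y ^ i * (ℓ.choose i : Matrix (Fin n) (Fin n) F) := by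
    rw [hMy, (Commute.one_right y).add_pow]
    rw [Finset.range_eq_Ico, Finset.sum_eq_sum_Ico_succ_bot (Nat.succ_pos ℓ)]
    simp
  rw [hexp]
  refine Le.sum _ _ fun i hi => ?_
  rw [Finset.mem_Ico] at hi
  have hyi : Le ((c ^ j) ^ i) (y ^ i) := hM.pow i
  have hcj : c ^ j ≤ 1 := pow_le_one' hc1.le j
  rcases Nat.lt_or_ge i ℓ with hlt | hge
  · -- the binomial coefficient is divisible by `ℓ`
    obtain ⟨q, hq⟩ := hℓ.dvd_choose_self (by omega : i ≠ 0) hlt
    intro a b
    have h1 : (y ^ i * (ℓ.choose i : Matrix (Fin n) (Fin n) F)) a b =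
        (y ^ i) a b * (ℓ : F) * (q : F) := by
      rw [hq]
      have : ((ℓ * q : ℕ) : Matrix (Fin n) (Fin n) F) =
          ((ℓ * q : ℕ) : F) • (1 : Matrix (Fin n) (Fin n) F) := by
        rw [← Matrix.diagonal_natCast]
        ext a b
        by_cases hab : a = b
        · subst hab; simp
        · simp [hab]
      rw [this, Matrix.mul_smul, mul_one, Matrix.smul_apply, smul_eq_mul, Nat.cast_mul]
      ring
    rw [h1, map_mul, map_mul]
    calc valuation F ((y ^ i) a b) * valuation F (ℓ : F) * valuation F (q : F)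
        ≤ (c ^ j) ^ i * c * 1 := mul_le_mul' (mul_le_mul' (hyi a b) hcℓ) (natCast_le_one q)
      _ ≤ c ^ j * c * 1 := by
          refine mul_le_mul' (mul_le_mul' ?_ le_rfl) le_rfl
          rw [← pow_mul]
          refine pow_le_pow_right_of_le_one' hc1.le ?_
          have := hi.1
          nlinarith
      _ = c ^ (j + 1) := by rw [mul_one, pow_succ]
  · have hiℓ : i = ℓ := by omega
    subst hiℓ
    rw [Nat.choose_self, Nat.cast_one, mul_one]
    refine hyi.mono ?_
    rw [← pow_mul]
    refine pow_le_pow_right_of_le_one' hc1.le ?_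
    have := hℓ.two_le
    nlinarith

end

end Pool.Agent.J4H10.TV
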