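import Mathlib
import Pool.Agent.J4H10.TV.Gln

/-!
# Closed subgroups of `GL_n` over a local field are locally of order prime to `p`
-/

set_option autoImplicit false
set_option linter.unusedSectionVars false

namespace Pool.Agent.J4H10.TV

open ValuativeRel Topology Filter

section

variable {F : Type*} [Field F] [ValuativeRel F] [TopologicalSpace F]
  [IsNonarchimedeanLocalField F] {n : ℕ}

theorem Lt.zero : Lt (0 : Matrix (Fin n) (Fin n) F) := by
  intro a b
  simp

/-- the first congruence subgroup -/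
def cong (F : Type*) [Field F] [ValuativeRel F] (n : ℕ) : Subgroup (GL (Fin n) F) where
  carrier := {g | Lt ((g : Matrix (Fin n) (Fin n) F) - 1) ∧
    Lt (((g⁻¹ : GL (Fin n) F) : Matrix (Fin n) (Fin n) F) - 1)}
  one_mem' := by
    constructor
    · intro a b; simp
    · intro a b; simp
  mul_mem' := by
    have key : ∀ x y : Matrix (Fin n) (Fin n) F, Lt (x - 1) → Lt (y - 1) → Lt (x * y - 1) := by
      intro x y hx hy
      have : x * y - 1 = (x - 1) * y + (y - 1) := by
        rw [sub_mul, one_mul]; abel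
      rw [this]
      exact (hx.mul_right hy.of_sub_one).add hy
    rintro g h ⟨hg, hg'⟩ ⟨hh, hh'⟩
    refine ⟨?_, ?_⟩
    · rw [Units.val_mul]
      exact key _ _ hg hh
    · rw [mul_inv_rev, Units.val_mul]
      exact key _ _ hh' hg'
  inv_mem' := by
    rintro g ⟨hg, hg'⟩
    refine ⟨hg', ?_⟩
    rw [inv_inv]
    exact hg

theorem mem_cong {g : GL (Fin n) F} : g ∈ cong F n ↔ Lt ((g : Matrix (Fin n) (Fin n) F) - 1) ∧
    Lt (((g⁻¹ : GL (Fin n) F) : Matrix (Fin n) (Fin n) F) - 1) := Iff.rfl

theorem isOpen_lt : IsOpen {M : Matrix (Fin n) (Fin n) F | Lt (M - 1)} := by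
  have : {M : Matrix (Fin n) (Fin n) F | Lt (M - 1)} =
      ⋂ a : Fin n, ⋂ b : Fin n, {M | valuation F ((M - 1) a b) < 1} := by
    ext M
    simp only [Set.mem_iInter]
    rfl
  rw [this]
  refine isOpen_iInter_of_finite fun a => isOpen_iInter_of_finite fun b => ?_
  have hc : Continuous fun M : Matrix (Fin n) (Fin n) F => (M - 1) a b :=
    (continuous_id.sub continuous_const).matrix_elem a b
  exact (isOpen_ball (F := F) 1 one_ne_zero).preimage hc

theorem isOpen_cong : IsOpen (cong F n : Set (GL (Fin n) F)) := by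
  have h1 : IsOpen {g : GL (Fin n) F | Lt ((g : Matrix (Fin n) (Fin n) F) - 1)} :=
    (isOpen_lt (F := F) (n := n)).preimage Units.continuous_val
  have h2 : IsOpen {g : GL (Fin n) F |
      Lt (((g⁻¹ : GL (Fin n) F) : Matrix (Fin n) (Fin n) F) - 1)} :=
    (isOpen_lt (F := F) (n := n)).preimage Units.continuous_coe_inv
  exact h1.inter h2

/-- matrices with entries in the valuation ring -/
def intMat (F : Type*) [Field F] [ValuativeRel F] (n : ℕ) : Submonoid (Matrix (Fin n) (Fin n) F) where
  carrier := {M | Le 1 M}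
  one_mem' := le_one
  mul_mem' := by
    intro a b ha hb
    have := ha.mul hb
    rwa [mul_one] at this

theorem isCompact_intMat : IsCompact (intMat F n : Set (Matrix (Fin n) (Fin n) F)) := by
  have h := isCompact_univ_pi (fun _ : Fin n => isCompact_univ_pi
    (fun _ : Fin n => IsNonarchimedeanLocalField.isCompact_closedBall F 1))
  have he : (intMat F n : Set (Matrix (Fin n) (Fin n) F)) =
      Set.univ.pi (fun _ : Fin n => Set.univ.pi fun _ : Fin n => {x | valuation F x ≤ 1}) := by
    apply Set.ext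
    intro M
    constructor
    · intro h a _ b _
      exact h a b
    · intro h a b
      exact h a (Set.mem_univ _) b (Set.mem_univ _)
  rw [he]
  exact h

theorem isCompact_cong : IsCompact (cong F n : Set (GL (Fin n) F)) := by
  have := t2_mat F n
  have h := Submonoid.units_isCompact (isCompact_intMat (F := F) (n := n))
  refine h.of_isClosed_subset (Subgroup.isClosed_of_isOpen _ isOpen_cong) ?_
  intro g hg
  rw [SetLike.mem_coe, mem_cong] at hg
  rw [SetLike.mem_coe, Submonoid.mem_units_iff]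
  exact ⟨hg.1.of_sub_one, hg.2.of_sub_one⟩

/-- iterating `pow_close` -/
theorem pow_pow_close (ℓ : ℕ) (hℓ : ℓ.Prime) (c : ValueGroupWithZero F) (hc1 : c < 1)
    (hcℓ : valuation F (ℓ : F) ≤ c) (M : Matrix (Fin n) (Fin n) F)
    (hM : Le c (M - 1)) (j : ℕ) : Le (c ^ (j + 1)) (M ^ ℓ ^ j - 1) := by
  induction j with
  | zero => simpa using hM
  | succ j ih =>
    rw [pow_succ ℓ, pow_mul]
    exact pow_close ℓ hℓ c hc1 hcℓ (j + 1) (by omega) _ ih

theorem tendsto_mat (ℓ : ℕ) (hℓ : ℓ.Prime) (hvℓ : valuation F (ℓ : F) < 1)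
    (M : Matrix (Fin n) (Fin n) F) (hM : Lt (M - 1)) :
    Tendsto (fun j : ℕ => M ^ ℓ ^ j) atTop (𝓝 1) := by
  classical
  -- the bound `c`
  let c : ValueGroupWithZero F := (Finset.univ : Finset (Fin n × Fin n)).sup
    (fun ab => valuation F ((M - 1) ab.1 ab.2)) ⊔ valuation F (ℓ : F)
  have hc1 : c < 1 := by
    refine max_lt ?_ hvℓ
    rw [Finset.sup_lt_iff (by exact bot_lt_iff_ne_bot.mpr (by
      rw [Ne, bot_eq_zero]; exact one_ne_zero))]
    intro ab _
    exact hM ab.1 ab.2
  have hcℓ : valuation F (ℓ : F) ≤ c := le_sup_right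
  have hMc : Le c (M - 1) := by
    intro a b
    refine le_sup_of_le_left ?_
    exact Finset.le_sup (f := fun ab : Fin n × Fin n => valuation F ((M - 1) ab.1 ab.2))
      (Finset.mem_univ (a, b))
  refine tendsto_pi_nhds.mpr fun a => tendsto_pi_nhds.mpr fun b => ?_
  rw [← tendsto_sub_nhds_zero_iff]
  rw [(IsValuativeTopology.hasBasis_nhds_zero' F).tendsto_right_iff]
  intro γ hγ
  obtain ⟨N, hN⟩ := exists_pow_lt₀ hc1 (Units.mk0 γ hγ)
  rw [eventually_atTop]
  refine ⟨N, fun j hj => ?_⟩
  have h1 := pow_pow_close ℓ hℓ c hc1 hcℓ M hMc j a b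
  have h2 : c ^ (j + 1) ≤ c ^ N := pow_le_pow_right_of_le_one' hc1.le (by omega)
  exact (h1.trans h2).trans_lt hN

end

end Pool.Agent.J4H10.TV
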