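import Mathlib
import Pool.Agent.J4H10.TV.Gln2

/-!
# Closed subgroups of `GL_n` over a local field are locally of order prime to `p`
-/

set_option autoImplicit false
set_option linter.unusedSectionVars false

namespace Pool.Agent.J4H10.TV

open ValuativeRel Topology Filter

section

variable {F : Type*} [Field F] [ValuativeRel F] [TopologicalSpace F]
  [IsNonarchimedeanLocalField F] {n : ℕ}

theorem tendsto_gl (ℓ : ℕ) (hℓ : ℓ.Prime) (hvℓ : valuation F (ℓ : F) < 1)
    (g : GL (Fin n) F) (hg : g ∈ cong F n) :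
    Tendsto (fun j : ℕ => g ^ ℓ ^ j) atTop (𝓝 1) := by
  rw [mem_cong] at hg
  rw [Units.isEmbedding_embedProduct.tendsto_nhds_iff]
  have h1 := tendsto_mat ℓ hℓ hvℓ _ hg.1
  have h2 := tendsto_mat ℓ hℓ hvℓ _ hg.2
  have h3 := (MulOpposite.continuous_op.tendsto (1 : Matrix (Fin n) (Fin n) F)).comp h2
  have h4 := h1.prodMk_nhds h3
  have h5 : (Units.embedProduct (Matrix (Fin n) (Fin n) F)) 1 = (1, MulOpposite.op 1) :=
    map_one _
  rw [h5]
  refine h4.congr fun j => ?_
  simp [Units.embedProduct]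

theorem exists_residue_prime (F : Type*) [Field F] [ValuativeRel F] [TopologicalSpace F]
    [IsNonarchimedeanLocalField F] :
    ∃ ℓ : ℕ, ℓ.Prime ∧ valuation F (ℓ : F) < 1 ∧ ((ℓ : ℕ) : 𝓀[F]) = 0 := by
  have hfin : Finite 𝓀[F] := inferInstance
  obtain ⟨ℓ, hℓ⟩ := CharP.exists 𝓀[F]
  have hprime : ℓ.Prime := CharP.char_is_prime 𝓀[F] ℓ
  have h0 : ((ℓ : ℕ) : 𝓀[F]) = 0 := CharP.cast_eq_zero _ _
  refine ⟨ℓ, hprime, ?_, h0⟩
  have h1 : IsLocalRing.residue 𝒪[F] (ℓ : 𝒪[F]) = 0 := by
    rw [map_natCast]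
    exact h0
  rw [IsLocalRing.residue_eq_zero_iff, IsLocalRing.mem_maximalIdeal, mem_nonunits_iff,
    Valuation.Integer.not_isUnit_iff_valuation_lt_one] at h1
  simpa using h1

/-- if the powers `g ^ (ℓ ^ j)` of all elements tend to `1`, then open subgroups of a compact
group have index a power of `ℓ` -/
theorem index_of_compact {K : Type*} [Group K] [TopologicalSpace K] [IsTopologicalGroup K]
    [CompactSpace K] (ℓ : ℕ) [hℓ : Fact ℓ.Prime]
    (h : ∀ g : K, Tendsto (fun j : ℕ => g ^ ℓ ^ j) atTop (𝓝 1)) (N : Subgroup K)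
    (hN : IsOpen (N : Set K)) : ∃ m : ℕ, N.index ∣ ℓ ^ m := by
  have hfi : N.FiniteIndex := by
    have : Finite (K ⧸ N) := Subgroup.quotient_finite_of_isOpen N hN
    exact Subgroup.finiteIndex_of_finite_quotient
  have hcl : IsClosed (N : Set K) := Subgroup.isClosed_of_isOpen N hN
  have hco : IsOpen (N.normalCore : Set K) := by
    refine Subgroup.isOpen_of_isClosed_of_finiteIndex _ ?_
    exact Subgroup.normalCore_isClosed N hcl
  have hfin : Finite (K ⧸ N.normalCore) := Subgroup.quotient_finite_of_isOpen _ hco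
  have hp : IsPGroup ℓ (K ⧸ N.normalCore) := by
    intro x
    induction x using QuotientGroup.induction_on with
    | H g =>
      have h1 := (h g).eventually (hco.mem_nhds (one_mem _))
      obtain ⟨j, hj⟩ := h1.exists
      exact ⟨j, (QuotientGroup.eq_one_iff _).mpr hj⟩
  obtain ⟨m, hm⟩ := IsPGroup.iff_card.mp hp
  refine ⟨m, ?_⟩
  rw [← hm]
  exact Subgroup.index_dvd_of_le N.normalCore_le

/-- a closed subgroup of `GL_n(F)`, `F` a local field of residue characteristic not `p`, is
locally of order prime to `p` -/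
theorem locallyPrimeTo (G : Subgroup (GL (Fin n) F)) (hG : IsClosed (G : Set (GL (Fin n) F)))
    (p : ℕ) (hp : p.Prime) (hpF : (p : 𝓀[F]) ≠ 0) : LocallyPrimeTo p G := by
  obtain ⟨ℓ, hℓ, hvℓ, hℓ0⟩ := exists_residue_prime F
  have hne : p ≠ ℓ := by
    rintro rfl
    exact hpF hℓ0
  refine ⟨(cong F n).subgroupOf G, ?_, ?_, ?_⟩
  · exact (isOpen_cong (F := F) (n := n)).preimage continuous_subtype_val
  · exact hG.isClosedEmbedding_subtypeVal.isCompact_preimage (isCompact_cong (F := F) (n := n))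
  · intro N hN hNK hdvd
    set K := (cong F n).subgroupOf G with hK
    have hcomp : IsCompact (K : Set G) :=
      hG.isClosedEmbedding_subtypeVal.isCompact_preimage (isCompact_cong (F := F) (n := n))
    have : CompactSpace K := isCompact_iff_compactSpace.mp hcomp
    have hℓ' : Fact ℓ.Prime := ⟨hℓ⟩
    obtain ⟨m, hm⟩ := index_of_compact (K := K) ℓ (by
      intro g
      have h1 := tendsto_gl ℓ hℓ hvℓ (g : GL (Fin n) F) g.2
      rw [Topology.IsEmbedding.subtypeVal.tendsto_nhds_iff,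
        Topology.IsEmbedding.subtypeVal.tendsto_nhds_iff]
      exact h1) (N.subgroupOf K) (hN.preimage continuous_subtype_val)
    have h2 : p ∣ ℓ ^ m := hdvd.trans hm
    exact hne ((Nat.prime_dvd_prime_iff_eq hp hℓ).mp (hp.dvd_of_dvd_pow h2))

end

end Pool.Agent.J4H10.TV
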