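import Mathlib
import Pool.Agent.J4H10.TV.Avg
import Pool.Agent.J4H10.TV.Defs

/-!
# Admissibility of Tate cohomology for locally profinite groups
-/

set_option autoImplicit false
set_option linter.unusedSectionVars false

namespace Pool.Agent.J4H10.TV

open Finset

section

variable {G : Type*} [Group G] [TopologicalSpace G] [IsTopologicalGroup G] [T2Space G]
  [TotallyDisconnectedSpace G]

/-- small `σ`-stable compact open subgroups of order prime to `p` -/
theorem exists_small (p : ℕ) (hp0 : 0 < p) (hG : LocallyPrimeTo p G) (σ : MulAut G)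
    (hσ : Continuous σ) (hσp : σ ^ p = 1) (W : Set G) (hW : IsOpen W) (h1 : (1 : G) ∈ W) :
    ∃ K : Subgroup G, IsOpen (K : Set G) ∧ IsCompact (K : Set G) ∧ (K : Set G) ⊆ W ∧
      (∀ x ∈ K, σ x ∈ K) ∧ ∀ N : Subgroup G, IsOpen (N : Set G) → N ≤ K → ¬ p ∣ N.relIndex K := by
  obtain ⟨K₀, ho, hc, hidx⟩ := hG
  have : CompactSpace K₀ := isCompact_iff_compactSpace.mp hc
  obtain ⟨N₀, hN₀⟩ := ProfiniteGrp.exist_openNormalSubgroup_sub_open_nhds_of_one
    (G := K₀) (U := (Subtype.val : K₀ → G) ⁻¹' W) (hW.preimage continuous_subtype_val) h1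
  set V₀ : Subgroup G := (N₀ : Subgroup K₀).map K₀.subtype with hV₀
  have hV₀o : IsOpen (V₀ : Set G) := by
    have : (V₀ : Set G) = (Subtype.val : K₀ → G) '' (N₀ : Set K₀) := rfl
    rw [this]
    exact ho.isOpenMap_subtype_val _ N₀.isOpen'
  have hV₀K : V₀ ≤ K₀ := by
    rintro x ⟨y, -, rfl⟩
    exact y.2
  have hV₀W : (V₀ : Set G) ⊆ W := by
    rintro x ⟨y, hy, rfl⟩
    exact hN₀ hy
  have hper : ∀ (i : ℕ) (x : G), (σ ^ i) x = (σ ^ (i % p)) x := by
    intro i x
    conv_lhs => rw [← Nat.mod_add_div i p, pow_add, pow_mul, hσp, one_pow, mul_one]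
  have hcont : ∀ i : ℕ, Continuous (σ ^ i : MulAut G) := by
    intro i
    induction i with
    | zero => exact continuous_id
    | succ i ih =>
      rw [pow_succ]
      exact ih.comp hσ
  let K : Subgroup G := ⨅ i : ℕ, V₀.comap (σ ^ i).toMonoidHom
  have hmem : ∀ x, x ∈ K ↔ ∀ i : ℕ, (σ ^ i) x ∈ V₀ := by
    intro x
    simp only [K, Subgroup.mem_iInf, Subgroup.mem_comap]
    rfl
  have hKV : K ≤ V₀ := fun x hx => (hmem x).mp hx 0
  have hKo : IsOpen (K : Set G) := by
    have : (K : Set G) = ⋂ i : Fin p, (σ ^ (i : ℕ) : MulAut G) ⁻¹' (V₀ : Set G) := by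
      ext x
      simp only [Set.mem_iInter, Set.mem_preimage, SetLike.mem_coe]
      rw [hmem]
      constructor
      · intro h i
        exact h i
      · intro h i
        rw [hper]
        exact h ⟨i % p, Nat.mod_lt _ hp0⟩
    rw [this]
    exact isOpen_iInter_of_finite fun i => hV₀o.preimage (hcont i)
  refine ⟨K, hKo, ?_, ?_, ?_, ?_⟩
  · exact hc.of_isClosed_subset (Subgroup.isClosed_of_isOpen K hKo) (hKV.trans hV₀K)
  · exact fun x hx => hV₀W (hKV hx)
  · intro x hx
    rw [hmem] at hx ⊢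
    intro i
    have := hx (i + 1)
    rw [pow_succ] at this
    exact this
  · intro N hN hNK hdiv
    refine hidx N hN (hNK.trans (hKV.trans hV₀K)) ?_
    rw [← Subgroup.relIndex_mul_relIndex N K K₀ hNK (hKV.trans hV₀K)]
    exact dvd_mul_of_dvd_left hdiv _

variable {k : Type*} [Field k] {V : Type*} [AddCommGroup V] [Module k V]

theorem isOpen_stab_of_le (ρ : Representation k G V) (v : V) (U : Subgroup G)
    (hU : IsOpen (U : Set G)) (h : ∀ g ∈ U, ρ g v = v) : IsOpen {g : G | ρ g v = v} := by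
  let S : Subgroup G :=
    { carrier := {x | ρ x v = v}
      one_mem' := by simp
      mul_mem' := by
        intro a b ha hb
        have ha' : ρ a v = v := ha
        have hb' : ρ b v = v := hb
        change ρ (a * b) v = v
        rw [map_mul, Module.End.mul_apply, hb', ha']
      inv_mem' := by
        intro a ha
        have ha' : ρ a v = v := ha
        change ρ a⁻¹ v = v
        conv_lhs => rw [← ha']
        rw [← Module.End.mul_apply, ← map_mul, inv_mul_cancel, map_one, Module.End.one_apply] }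
  exact Subgroup.isOpen_mono (H₁ := U) (H₂ := S) h hU

/-- the common argument for both Tate cohomology groups -/
theorem coh_admissible (p : ℕ) [hp : Fact p.Prime] [CharP k p] (hG : LocallyPrimeTo p G)
    (σ : MulAut G) (hσ : Continuous σ) (hσp : σ ^ p = 1) (ρ : Representation k G V)
    (hadm : Admissible ρ) (τ : Module.End k V) (hτ : Extends p σ ρ τ) (A B : Module.End k V)
    (hA : ∀ (h : fixedBy σ) (v : V), A (ρ h v) = ρ h (A v))
    (hB : ∀ (h : fixedBy σ) (v : V), B (ρ h v) = ρ h (B v))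
    (key : ∀ K : Subgroup G, IsOpen (K : Set G) → IsCompact (K : Set G) → (∀ x ∈ K, σ x ∈ K) →
      (∀ N : Subgroup G, IsOpen (N : Set G) → N ≤ K → ¬ p ∣ N.relIndex K) →
      ∀ v : V, A v = 0 → (∀ x ∈ K, σ x = x → ρ x v - v ∈ LinearMap.range B) →
      ∃ (n : ℕ) (s : V), ¬ p ∣ n ∧ (∀ x ∈ K, ρ x s = s) ∧ A s = 0 ∧
        n • v - s ∈ LinearMap.range B) :
    Admissible (cohRep (ρ.comp (fixedBy σ).subtype) A B hA hB) := by
  refine ⟨?_, ?_⟩
  · intro c
    obtain ⟨⟨v, hv⟩, rfl⟩ := Submodule.Quotient.mk_surjective _ c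
    have hU : IsOpen {g : G | ρ g v = v} := hadm.1 v
    let S : Subgroup (fixedBy σ) :=
      { carrier := {x | ρ (x : G) v = v}
        one_mem' := by simp
        mul_mem' := by
          intro a b ha hb
          have ha' : ρ (a : G) v = v := ha
          have hb' : ρ (b : G) v = v := hb
          change ρ ((a : G) * (b : G)) v = v
          rw [map_mul, Module.End.mul_apply, hb', ha']
        inv_mem' := by
          intro a ha
          have ha' : ρ (a : G) v = v := ha
          change ρ (a : G)⁻¹ v = v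
          conv_lhs => rw [← ha']
          rw [← Module.End.mul_apply, ← map_mul, inv_mul_cancel, map_one, Module.End.one_apply] }
    refine isOpen_stab_of_le _ _ S ?_ ?_
    · exact hU.preimage continuous_subtype_val
    · intro g hg
      have hg' : ρ (g : G) v = v := hg
      have hmem' : ρ (g : G) v ∈ LinearMap.ker A := by
        rw [LinearMap.mem_ker, hA, LinearMap.mem_ker.mp hv, map_zero]
      rw [cohRep_mk (ρ.comp (fixedBy σ).subtype) A B hA hB g v hv hmem']
      congr 1
      exact Subtype.ext hg'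
  · intro K' hK'o hK'c
    obtain ⟨W, hWo, hW⟩ := hK'o
    have h1W : (1 : G) ∈ W := by
      have : (1 : fixedBy σ) ∈ (Subtype.val : fixedBy σ → G) ⁻¹' W := by
        rw [hW]
        exact K'.one_mem
      exact this
    obtain ⟨K, hKo, hKc, hKW, hKσ, hKidx⟩ := exists_small p hp.out.pos hG σ hσ hσp W hWo h1W
    have hfin : FiniteDimensional k (inv ρ K) := hadm.2 K hKo hKc
    -- the map from the `K`-fixed vectors in `ker A`
    let E : Submodule k (inv ρ K) := (LinearMap.ker A).comap (inv ρ K).subtype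
    let φ : E →ₗ[k] Coh A B :=
      (Submodule.mkQ _).comp (LinearMap.codRestrict (LinearMap.ker A)
        ((inv ρ K).subtype.comp E.subtype) (fun e => e.2))
    have hle : inv (cohRep (ρ.comp (fixedBy σ).subtype) A B hA hB) K' ≤ LinearMap.range φ := by
      intro c hc
      obtain ⟨⟨v, hv⟩, rfl⟩ := Submodule.Quotient.mk_surjective _ c
      have hv0 : A v = 0 := hv
      obtain ⟨n, s, hn, hsK, hsA, hsR⟩ := key K hKo hKc hKσ hKidx v hv0 (by
        intro x hx hxσ
        have hxK' : (⟨x, hxσ⟩ : fixedBy σ) ∈ K' := by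
          have : (⟨x, hxσ⟩ : fixedBy σ) ∈ (Subtype.val : fixedBy σ → G) ⁻¹' W := hKW hx
          rw [hW] at this
          exact this
        have hx' : x ∈ fixedBy σ := hxσ
        have h2 := hc ⟨x, hx'⟩ hxK'
        have hmem' : ρ x v ∈ LinearMap.ker A := by
          have := hA ⟨x, hx'⟩ v
          rw [LinearMap.mem_ker]
          exact this.trans (by rw [LinearMap.mem_ker.mp hv, map_zero])
        rw [cohRep_mk (ρ.comp (fixedBy σ).subtype) A B hA hB ⟨x, hx'⟩ v hv hmem',
          Submodule.Quotient.eq] at h2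
        exact h2)
      have hn' : (n : k) ≠ 0 := by
        intro h
        exact hn ((CharP.cast_eq_zero_iff k p n).mp h)
      refine ⟨(n : k)⁻¹ • ⟨⟨s, hsK⟩, hsA⟩, ?_⟩
      rw [map_smul]
      have h3 : φ ⟨⟨s, hsK⟩, hsA⟩ = (n : k) • (Submodule.Quotient.mk ⟨v, hv⟩ : Coh A B) := by
        have h4 : φ ⟨⟨s, hsK⟩, hsA⟩ = Submodule.Quotient.mk ⟨s, hsA⟩ := rfl
        rw [h4, ← Submodule.Quotient.mk_smul, Submodule.Quotient.eq]
        have h5 : s - (n : k) • v ∈ LinearMap.range B := by
          have : s - (n : k) • v = -(n • v - s) := by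
            rw [Nat.cast_smul_eq_nsmul]; abel
          rw [this]
          exact Submodule.neg_mem _ hsR
        exact h5
      rw [h3, smul_smul, inv_mul_cancel₀ hn', one_smul]
    exact Submodule.finiteDimensional_of_le hle

/-- the restriction to a stable compact open subgroup -/
theorem key_prop (p : ℕ) [hp : Fact p.Prime] (σ : MulAut G) (hσ : Continuous σ) (hσp : σ ^ p = 1)
    (ρ : Representation k G V) (hsm : Smooth ρ) (τ : Module.End k V) (hτ : Extends p σ ρ τ)
    (K : Subgroup G) (hKo : IsOpen (K : Set G)) (hKc : IsCompact (K : Set G))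
    (hKσ : ∀ x ∈ K, σ x ∈ K)
    (hidx : ∀ N : Subgroup G, IsOpen (N : Set G) → N ≤ K → ¬ p ∣ N.relIndex K) (v : V) :
    (τ v = v → (∀ x ∈ K, σ x = x → ρ x v - v ∈ LinearMap.range (nm p τ)) →
      ∃ (n : ℕ) (s : V), ¬ p ∣ n ∧ (∀ x ∈ K, ρ x s = s) ∧ τ s = s ∧
        n • v - s ∈ LinearMap.range (nm p τ)) ∧
    (nm p τ v = 0 → (∀ x ∈ K, σ x = x → ρ x v - v ∈ LinearMap.range (1 - τ)) →
      ∃ (n : ℕ) (s : V), ¬ p ∣ n ∧ (∀ x ∈ K, ρ x s = s) ∧ nm p τ s = 0 ∧
        n • v - s ∈ LinearMap.range (1 - τ)) := by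
  have : CompactSpace K := isCompact_iff_compactSpace.mp hKc
  have hσi : ∀ (i : ℕ) (x : G), x ∈ K → (σ ^ i) x ∈ K := by
    intro i
    induction i with
    | zero => intro x hx; exact hx
    | succ i ih =>
      intro x hx
      rw [pow_succ']
      exact hKσ _ (ih x hx)
  let f : K →* K :=
    { toFun := fun x => ⟨σ (x : G), hKσ x x.2⟩
      map_one' := Subtype.ext (map_one σ)
      map_mul' := fun a b => Subtype.ext (map_mul σ (a : G) (b : G)) }
  have hf : Function.Bijective f := by
    refine ⟨?_, ?_⟩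
    · intro a b hab
      exact Subtype.ext (σ.injective (congrArg Subtype.val hab))
    · intro y
      refine ⟨⟨(σ ^ (p - 1)) y, hσi _ _ y.2⟩, Subtype.ext ?_⟩
      change σ ((σ ^ (p - 1)) (y : G)) = y
      have h1 : σ ((σ ^ (p - 1)) (y : G)) = (σ ^ (p - 1 + 1)) (y : G) := by
        rw [pow_succ']; rfl
      rw [h1, Nat.sub_add_cancel hp.out.one_le, hσp]
      rfl
  let σK : MulAut K := MulEquiv.ofBijective f hf
  have hσK : ∀ x : K, ((σK x : K) : G) = σ (x : G) := fun x => rfl
  have hσKi : ∀ (i : ℕ) (x : K), (((σK ^ i) x : K) : G) = (σ ^ i) (x : G) := by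
    intro i
    induction i with
    | zero => intro x; rfl
    | succ i ih =>
      intro x
      rw [pow_succ', pow_succ']
      change σ (((σK ^ i) x : K) : G) = σ ((σ ^ i) (x : G))
      rw [ih]
  have hcont : Continuous σK := by
    refine Continuous.subtype_mk ?_ _
    exact hσ.comp continuous_subtype_val
  have hpow : σK ^ p = 1 := by
    ext x
    rw [hσKi, hσp]
    rfl
  have hK : ∀ N : Subgroup K, IsOpen (N : Set K) → ¬ p ∣ N.index := by
    intro N hN hdiv
    refine hidx (N.map K.subtype) ?_ ?_ ?_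
    · have : ((N.map K.subtype : Subgroup G) : Set G) = (Subtype.val : K → G) '' (N : Set K) := rfl
      rw [this]
      exact hKo.isOpenMap_subtype_val _ hN
    · rintro x ⟨y, -, rfl⟩
      exact y.2
    · have : (N.map K.subtype).relIndex K = N.index := by
        rw [Subgroup.relIndex]
        congr 1
        exact Subgroup.comap_map_eq_self_of_injective K.subtype_injective N
      rw [this]
      exact hdiv
  have hmain := exists_inv (ρ.comp K.subtype) p hK σK hcont hpow τ
    (fun x w => hτ.1 x w) hτ.2 v ((hsm v).preimage continuous_subtype_val)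
  constructor
  · intro h1 h2
    obtain ⟨n, s, hn, hs, hs1, hs2⟩ := hmain.1 h1 (fun x hx => h2 x x.2 (by
      rw [← hσK, hx]))
    exact ⟨n, s, hn, fun x hx => hs ⟨x, hx⟩, hs1, hs2⟩
  · intro h1 h2
    obtain ⟨n, s, hn, hs, hs1, hs2⟩ := hmain.2 h1 (fun x hx => h2 x x.2 (by
      rw [← hσK, hx]))
    exact ⟨n, s, hn, fun x hx => hs ⟨x, hx⟩, hs1, hs2⟩

/-- **Admissibility of Tate cohomology.** -/
theorem tate_admissible (p : ℕ) [hp : Fact p.Prime] [CharP k p] (hG : LocallyPrimeTo p G)
    (σ : MulAut G) (hσ : Continuous σ) (hσp : σ ^ p = 1) (ρ : Representation k G V)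
    (hadm : Admissible ρ) (τ : Module.End k V) (hτ : Extends p σ ρ τ) :
    Admissible (tate0 hτ) ∧ Admissible (tate1 hτ) := by
  constructor
  · refine coh_admissible p hG σ hσ hσp ρ hadm τ hτ (1 - τ) (nm p τ) hτ.comm_sub hτ.comm_nm ?_
    intro K hKo hKc hKσ hidx v hv hvR
    have h1 : τ v = v := by
      rw [LinearMap.sub_apply, Module.End.one_apply, sub_eq_zero] at hv
      exact hv.symm
    obtain ⟨n, s, hn, hs, hs1, hs2⟩ :=
      (key_prop p σ hσ hσp ρ hadm.1 τ hτ K hKo hKc hKσ hidx v).1 h1 hvR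
    exact ⟨n, s, hn, hs, by rw [LinearMap.sub_apply, Module.End.one_apply, hs1, sub_self], hs2⟩
  · refine coh_admissible p hG σ hσ hσp ρ hadm τ hτ (nm p τ) (1 - τ) hτ.comm_nm hτ.comm_sub ?_
    intro K hKo hKc hKσ hidx v hv hvR
    exact (key_prop p σ hσ hσp ρ hadm.1 τ hτ K hKo hKc hKσ hidx v).2 hv hvR

end

end Pool.Agent.J4H10.TV
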