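import Mathlib
import Pool.Agent.J4H10.TV.Main1

/-!
# Schur's lemma and the extension of the action to the semidirect product
-/

set_option autoImplicit false
set_option linter.unusedSectionVars false

namespace Pool.Agent.J4H10.TV

open Finset

section

variable {G : Type*} [Group G] [TopologicalSpace G] [IsTopologicalGroup G] [T2Space G]
  [TotallyDisconnectedSpace G]
variable {k : Type*} [Field k] {V : Type*} [AddCommGroup V] [Module k V]

/-- Schur's lemma for irreducible admissible representations -/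
theorem schur [IsAlgClosed k] (p : ℕ) (hp0 : 0 < p) (hG : LocallyPrimeTo p G) (σ : MulAut G)
    (hσ : Continuous σ) (hσp : σ ^ p = 1) (ρ : Representation k G V) (hirr : Irred ρ)
    (hadm : Admissible ρ) (φ : Module.End k V) (hφ : ∀ g v, φ (ρ g v) = ρ g (φ v)) :
    ∃ c : k, φ = c • (1 : Module.End k V) := by
  obtain ⟨hnt, hirr⟩ := hirr
  obtain ⟨v, hv⟩ := exists_ne (0 : V)
  obtain ⟨K, hKo, hKc, hKW, -, -⟩ := exists_small p hp0 hG σ hσ hσp {g : G | ρ g v = v}
    (hadm.1 v) (by simp)
  have hfin : FiniteDimensional k (inv ρ K) := hadm.2 K hKo hKc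
  have hvK : v ∈ inv ρ K := fun g hg => hKW hg
  have hnt' : Nontrivial (inv ρ K) := ⟨⟨⟨v, hvK⟩, 0, fun h => hv (congrArg Subtype.val h)⟩⟩
  let ψ : Module.End k (inv ρ K) := φ.restrict (fun w hw g hg => by rw [← hφ, hw g hg])
  obtain ⟨c, hc⟩ := Module.End.exists_eigenvalue ψ
  obtain ⟨w, hw⟩ := hc.exists_hasEigenvector
  refine ⟨c, ?_⟩
  have hw1 : φ (w : V) = c • (w : V) := congrArg Subtype.val hw.apply_eq_smul
  have hw0 : (w : V) ≠ 0 := fun h => hw.2 (Subtype.ext h)
  rcases hirr (LinearMap.ker (φ - c • (1 : Module.End k V))) (by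
    intro g x hx
    rw [LinearMap.mem_ker, LinearMap.sub_apply, LinearMap.smul_apply, Module.End.one_apply,
      sub_eq_zero] at hx ⊢
    rw [hφ, hx, map_smul]) with h | h
  · exfalso
    have : (w : V) ∈ LinearMap.ker (φ - c • (1 : Module.End k V)) := by
      rw [LinearMap.mem_ker, LinearMap.sub_apply, LinearMap.smul_apply, Module.End.one_apply,
        hw1, sub_self]
    rw [h, Submodule.mem_bot] at this
    exact hw0 this
  · rw [LinearMap.ker_eq_top] at h
    exact sub_eq_zero.mp h

theorem comm_pow_of {σ : MulAut G} {ρ : Representation k G V} {e : Module.End k V}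
    (he : ∀ g v, e (ρ g v) = ρ (σ g) (e v)) (i : ℕ) (g : G) (v : V) :
    (e ^ i) (ρ g v) = ρ ((σ ^ i) g) ((e ^ i) v) := by
  induction i with
  | zero => rfl
  | succ i ih =>
    rw [pow_succ', Module.End.mul_apply, ih, he, pow_succ', Module.End.mul_apply]
    rfl

/-- the extension to the semidirect product exists and is unique -/
theorem exists_unique_extends [IsAlgClosed k] (p : ℕ) [hp : Fact p.Prime] [CharP k p]
    (hG : LocallyPrimeTo p G) (σ : MulAut G)
    (hσ : Continuous σ) (hσp : σ ^ p = 1) (ρ : Representation k G V) (hirr : Irred ρ)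
    (hadm : Admissible ρ) (hfix : ∃ e : V ≃ₗ[k] V, ∀ g v, e (ρ g v) = ρ (σ g) (e v)) :
    ∃! τ : Module.End k V, Extends p σ ρ τ := by
  have hnt : Nontrivial V := hirr.1
  obtain ⟨e, he⟩ := hfix
  set e' : Module.End k V := (e : V →ₗ[k] V) with he'
  have he1 : ∀ g v, e' (ρ g v) = ρ (σ g) (e' v) := he
  obtain ⟨c, hc⟩ := schur p hp.out.pos hG σ hσ hσp ρ hirr hadm (e' ^ p) (by
    intro g v
    rw [comm_pow_of he1 p g v, hσp]
    rfl)
  obtain ⟨v0, hv0⟩ := exists_ne (0 : V)
  have hc0 : c ≠ 0 := by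
    rintro rfl
    rw [zero_smul] at hc
    have hinj : Function.Injective (e' ^ p : Module.End k V) := by
      rw [Module.End.coe_pow]
      exact e.injective.iterate p
    exact hv0 (hinj (by rw [hc]; rfl))
  obtain ⟨d, hd⟩ := IsAlgClosed.exists_pow_nat_eq c hp.out.pos
  have hd0 : d ≠ 0 := by
    rintro rfl
    exact hc0 (by rw [← hd, zero_pow hp.out.ne_zero])
  refine ⟨d⁻¹ • e', ⟨?_, ?_⟩, ?_⟩
  · intro g v
    rw [LinearMap.smul_apply, LinearMap.smul_apply, he1, map_smul]
  · rw [smul_pow, hc, smul_smul, inv_pow, hd, inv_mul_cancel₀ hc0, one_smul]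
  · intro τ' hτ'
    set τ : Module.End k V := d⁻¹ • e' with hτ
    have hτ1 : ∀ g v, τ (ρ g v) = ρ (σ g) (τ v) := by
      intro g v
      rw [hτ, LinearMap.smul_apply, LinearMap.smul_apply, he1, map_smul]
    have hτ2 : τ ^ p = 1 := by
      rw [hτ, smul_pow, hc, smul_smul, inv_pow, hd, inv_mul_cancel₀ hc0, one_smul]
    obtain ⟨b, hb⟩ := schur p hp.out.pos hG σ hσ hσp ρ hirr hadm (τ' * τ ^ (p - 1)) (by
      intro g v
      rw [Module.End.mul_apply, comm_pow_of hτ1, hτ'.1, Module.End.mul_apply]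
      have : σ ((σ ^ (p - 1)) g) = (σ ^ (p - 1 + 1)) g := by
        rw [pow_succ']; rfl
      rw [this, Nat.sub_add_cancel hp.out.one_le, hσp]
      rfl)
    have h1 : τ' = b • τ := by
      have h2 : τ' * τ ^ (p - 1) * τ = b • τ := by
        rw [hb, smul_mul_assoc, one_mul]
      rw [mul_assoc, ← pow_succ, Nat.sub_add_cancel hp.out.one_le, hτ2, mul_one] at h2
      exact h2
    have h3 : b ^ p = 1 := by
      have h4 := hτ'.2
      rw [h1, smul_pow, hτ2] at h4
      have h5 := congrArg (fun f : Module.End k V => f v0) h4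
      simp only [LinearMap.smul_apply, Module.End.one_apply] at h5
      have h6 : (b ^ p - 1) • v0 = 0 := by rw [sub_smul, h5, one_smul, sub_self]
      rcases smul_eq_zero.mp h6 with h | h
      · exact sub_eq_zero.mp h
      · exact absurd h hv0
    have h7 : b = 1 := by
      have h8 : (b - 1) ^ p = 0 := by rw [sub_pow_char, h3, one_pow, sub_self]
      exact sub_eq_zero.mp (pow_eq_zero_iff hp.out.ne_zero |>.mp h8)
    rw [h1, h7, one_smul]

end

end Pool.Agent.J4H10.TV
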