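import Mathlib
import Pool.Agent.J4H10.TV.Schur
import Pool.Agent.J4H10.TV.Gln3

/-!
# The statement
-/

set_option autoImplicit false

namespace Pool.Agent.J4H10.TV

universe u v w

section

variable {G : Type*} [Group G] {k : Type*} [Field k] {V : Type*} [AddCommGroup V] [Module k V]

/-- `ρ` is isomorphic to `ρ ∘ σ` -/
def Fixed (σ : MulAut G) (ρ : Representation k G V) : Prop :=
  ∃ e : V ≃ₗ[k] V, ∀ g v, e (ρ g v) = ρ (σ g) (e v)

/-- for every extension `τ` of the action, `T⁰` and `T¹` are admissible representations of the
fixed subgroup of `σ` -/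
def TateAdmissible [TopologicalSpace G] (p : ℕ) (σ : MulAut G) (ρ : Representation k G V) :
    Prop :=
  ∀ (τ : Module.End k V) (hτ : Extends p σ ρ τ), Admissible (tate0 hτ) ∧ Admissible (tate1 hτ)

end

/-- for every continuous automorphism `σ` of `G` with `σ ^ p = 1`, every algebraically closed
field `k` of characteristic `p` and every irreducible admissible representation `ρ` of `G` over `k`
isomorphic to `ρ ∘ σ`: the extension of the action exists and is unique, and `T⁰`, `T¹` are
admissible -/
def IrreducibleCase (p : ℕ) (G : Type u) [Group G] [TopologicalSpace G] : Prop :=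
  ∀ (σ : MulAut G) (k : Type v) [Field k] [IsAlgClosed k] [CharP k p]
    (V : Type w) [AddCommGroup V] [Module k V] (ρ : Representation k G V),
    Continuous σ → σ ^ p = 1 → Irred ρ → Admissible ρ → Fixed σ ρ →
    (∃! τ : Module.End k V, Extends p σ ρ τ) ∧ TateAdmissible p σ ρ

/-- for every continuous automorphism `σ` of `G` with `σ ^ p = 1`, every field `k` of
characteristic `p`, every admissible representation `ρ` of `G` over `k` and every extension of the
action: `T⁰`, `T¹` are admissible -/
def GeneralCase (p : ℕ) (G : Type u) [Group G] [TopologicalSpace G] : Prop :=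
  ∀ (σ : MulAut G) (k : Type v) [Field k] [CharP k p]
    (V : Type w) [AddCommGroup V] [Module k V] (ρ : Representation k G V),
    Continuous σ → σ ^ p = 1 → Admissible ρ → TateAdmissible p σ ρ

end Pool.Agent.J4H10.TV
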